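import Pool.Agent.D0H90.SM.Stm4

set_option autoImplicit false

/-!
# SM 30: the cotangent space at a map with only scalar automorphisms (`t_CONV`)
-/

namespace Pool.Agent.D0H58.SM

open MvPolynomial Matrix Pool.Agent.D0H90.SM

universe u

variable {k : Type u} [Field k] {n d : ℕ}

omit [Field k] in
theorem glue_rest (c : Cf n d → k) : glue c (rest c) = c := by
  classical
  funext a
  unfold glue rest
  split_ifs <;> rfl

/-- `v` and `w` are the value and the gradient at `c` of the rational function `x`. -/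
def Gr (c : Cf n d → k) (x : Rat n d k) (v : k) (w : Rest n d → k) : Prop :=
  ∃ P Q : Pol n d k, eval c Q ≠ 0 ∧
    x * algebraMap (Pol n d k) (Rat n d k) Q = algebraMap (Pol n d k) (Rat n d k) P ∧
    v * eval c Q = eval c P ∧
    ∀ ρ : Rest n d, v * eval c (pderiv ρ.1 Q) + w ρ * eval c Q = eval c (pderiv ρ.1 P)

theorem pd_mul (c : Cf n d → k) (ρ : Rest n d) (P Q : Pol n d k) :
    eval c (pderiv ρ.1 (P * Q)) = eval c P * eval c (pderiv ρ.1 Q) +
      eval c Q * eval c (pderiv ρ.1 P) := by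
  rw [Derivation.leibniz, map_add, smul_eq_mul, smul_eq_mul, map_mul, map_mul]

theorem Gr.uniq {c : Cf n d → k} {x : Rat n d k} {v v' : k} {w w' : Rest n d → k}
    (h : Gr c x v w) (h' : Gr c x v' w') : v = v' ∧ w = w' := by
  obtain ⟨P, Q, hQ, hx, hv, hw⟩ := h
  obtain ⟨P', Q', hQ', hx', hv', hw'⟩ := h'
  have e : P * Q' = P' * Q := by
    apply IsFractionRing.injective (Pol n d k) (Rat n d k)
    rw [map_mul, map_mul, ← hx, ← hx']
    ring
  have ef : eval c P * eval c Q' = eval c P' * eval c Q := by rw [← map_mul, e, map_mul]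
  have e1 : v = v' := by
    apply mul_right_cancel₀ (mul_ne_zero hQ hQ')
    linear_combination (eval c Q') * hv - (eval c Q) * hv' + ef
  refine ⟨e1, ?_⟩
  funext ρ
  have eD : eval c (pderiv ρ.1 (P * Q')) = eval c (pderiv ρ.1 (P' * Q)) := by rw [e]
  rw [pd_mul, pd_mul] at eD
  apply mul_right_cancel₀ (mul_ne_zero hQ hQ')
  subst e1
  linear_combination (eval c Q') * hw ρ - (eval c Q) * hw' ρ + eD +
    (eval c (pderiv ρ.1 Q')) * hv - (eval c (pderiv ρ.1 Q)) * hv'

theorem Gr.add {c : Cf n d → k} {x x' : Rat n d k} {v v' : k} {w w' : Rest n d → k}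
    (h : Gr c x v w) (h' : Gr c x' v' w') : Gr c (x + x') (v + v') (w + w') := by
  obtain ⟨P, Q, hQ, hx, hv, hw⟩ := h
  obtain ⟨P', Q', hQ', hx', hv', hw'⟩ := h'
  refine ⟨P * Q' + P' * Q, Q * Q', ?_, ?_, ?_, ?_⟩
  · rw [map_mul]; exact mul_ne_zero hQ hQ'
  · rw [map_mul, map_add, map_mul, map_mul, ← hx, ← hx']; ring
  · rw [map_mul, map_add, map_mul, map_mul, ← hv, ← hv']; ring
  · intro ρ
    rw [pd_mul, map_add, map_add, pd_mul, pd_mul, map_mul, Pi.add_apply]
    linear_combination (eval c Q') * hw ρ + (eval c Q) * hw' ρ +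
      (eval c (pderiv ρ.1 Q')) * hv + (eval c (pderiv ρ.1 Q)) * hv'

theorem Gr.mul {c : Cf n d → k} {x x' : Rat n d k} {v v' : k} {w w' : Rest n d → k}
    (h : Gr c x v w) (h' : Gr c x' v' w') :
    Gr c (x * x') (v * v') (v • w' + v' • w) := by
  obtain ⟨P, Q, hQ, hx, hv, hw⟩ := h
  obtain ⟨P', Q', hQ', hx', hv', hw'⟩ := h'
  refine ⟨P * P', Q * Q', ?_, ?_, ?_, ?_⟩
  · rw [map_mul]; exact mul_ne_zero hQ hQ'
  · rw [map_mul, map_mul, ← hx, ← hx']; ring
  · rw [map_mul, map_mul, ← hv, ← hv']; ring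
  · intro ρ
    rw [pd_mul, pd_mul, map_mul, Pi.add_apply, Pi.smul_apply, Pi.smul_apply, smul_eq_mul,
      smul_eq_mul, ← hv, ← hv', ← hw, ← hw']
    ring

theorem Gr.smul {c : Cf n d → k} {x : Rat n d k} {v : k} {w : Rest n d → k}
    (t : k) (h : Gr c x v w) : Gr c (t • x) (t * v) (t • w) := by
  obtain ⟨P, Q, hQ, hx, hv, hw⟩ := h
  refine ⟨C t * P, Q, hQ, ?_, ?_, ?_⟩
  · rw [map_mul, ← hx, smul_mul_assoc, Algebra.smul_def]
    congr 1
  · rw [map_mul, ← hv, eval_C]; ring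
  · intro ρ
    rw [pd_mul, pderiv_C, map_zero, Pi.smul_apply, smul_eq_mul, ← hw, eval_C]
    ring

theorem gr_of {c : Cf n d → k} {x : Rat n d k} {P Q : Pol n d k} (hQ : eval c Q ≠ 0)
    (hx : x * algebraMap (Pol n d k) (Rat n d k) Q = algebraMap (Pol n d k) (Rat n d k) P) :
    Gr c x (eval c P / eval c Q) (fun ρ => eval c (grad P Q ρ) / eval c Q ^ 2) := by
  refine ⟨P, Q, hQ, hx, div_mul_cancel₀ _ hQ, fun ρ => ?_⟩
  have e : eval c (grad P Q ρ) = eval c Q * eval c (pderiv ρ.1 P) -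
      eval c P * eval c (pderiv ρ.1 Q) := by
    unfold grad
    rw [map_sub, map_mul, map_mul]
  beta_reduce
  rw [e]
  field_simp
  ring

theorem exists_gr {c : Cf n d → k} (x : maxId c) : ∃ w, Gr c x.1.1 0 w := by
  obtain ⟨P, Q, _, hQ, hP, hx⟩ := x.2
  have h := gr_of hQ hx
  rw [hP, zero_div] at h
  exact ⟨_, h⟩

/-- The differential at `c`, in the directions of the slice. -/
noncomputable def DD (c : Cf n d → k) : maxId c →ₗ[k] (Rest n d → k) where
  toFun x := (exists_gr x).choose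
  map_add' x y := by
    have h1 := (exists_gr (x + y)).choose_spec
    have h2 := (exists_gr x).choose_spec.add (exists_gr y).choose_spec
    rw [add_zero] at h2
    exact (h1.uniq h2).2
  map_smul' t x := by
    have h1 := (exists_gr (t • x)).choose_spec
    have h2 := (exists_gr x).choose_spec.smul t
    rw [mul_zero] at h2
    exact (h1.uniq h2).2

theorem DD_spec (c : Cf n d → k) (x : maxId c) : Gr c x.1.1 0 (DD c x) :=
  (exists_gr x).choose_spec

theorem DD_eq {c : Cf n d → k} {x : maxId c} {P Q : Pol n d k} (hQ : eval c Q ≠ 0)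
    (hx : x.1.1 * algebraMap (Pol n d k) (Rat n d k) Q =
      algebraMap (Pol n d k) (Rat n d k) P) (ρ : Rest n d) :
    eval c (grad P Q ρ) = DD c x ρ * eval c Q ^ 2 := by
  have h := ((DD_spec c x).uniq (gr_of hQ hx)).2
  rw [h, div_mul_cancel₀ _ (pow_ne_zero 2 hQ)]

theorem DD_sq {c : Cf n d → k} (x : maxId c) (hx : (x : locRing c) ∈ maxId c ^ 2) :
    DD c x = 0 := by
  have key : ∀ y ∈ (maxId c) ^ 2, ∃ v w, Gr c (y : locRing c).1 v w ∧ v = 0 ∧ w = 0 := by
    intro y hy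
    rw [pow_two] at hy
    induction hy using Submodule.mul_induction_on' with
    | mem_mul_mem a ha b hb =>
      obtain ⟨w, hw⟩ := exists_gr ⟨a, ha⟩
      obtain ⟨w', hw'⟩ := exists_gr ⟨b, hb⟩
      refine ⟨_, _, hw.mul hw', by simp, by simp⟩
    | add a _ b _ iha ihb =>
      obtain ⟨v, w, h, h1, h2⟩ := iha
      obtain ⟨v', w', h', h1', h2'⟩ := ihb
      exact ⟨_, _, h.add h', by simp [h1, h1'], by simp [h2, h2']⟩
  obtain ⟨v, w, h, _, hw⟩ := key _ hx
  rw [((DD_spec c x).uniq h).2, hw]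

theorem Invt.self (G : Pol n d k) : Invt G G := by
  intro A A' _ c
  ring

theorem invt_sub {P Q : Pol n d k} (h : Invt P Q) (t : k) : Invt (P - C t * Q) Q := by
  intro A A' hA c
  have := h A A' hA c
  simp only [map_sub, map_mul, eval_C]
  linear_combination this

theorem grad_sub (P Q : Pol n d k) (t : k) (ρ : Rest n d) : grad (P - C t * Q) Q ρ = grad P Q ρ := by
  unfold grad
  rw [map_sub, Derivation.leibniz, pderiv_C, smul_zero, add_zero, smul_eq_mul]
  ring

/-- Functions with independent gradients. -/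
theorem exists_h (hTT : S_TT.{u}) (hFAM : S_FAM.{u}) [IsAlgClosed k] [CharZero k] (hn : 2 ≤ n)
    (hd : 2 ≤ d) (c : Cf n d → k) (hc : Nondeg c) (ht : Transv c)
    (hs : ∀ A A' : Matrix (Fin n) (Fin n) k, A * A' = 1 → Fixes A c →
      ∃ r : k, A = r • (1 : Matrix (Fin n) (Fin n) k)) :
    ∃ (h : Rest n d → maxId c), (Matrix.of fun i ρ => DD c (h i) ρ).det ≠ 0 := by
  classical
  obtain ⟨b, T1, T2, hb, hT, h1, h2⟩ := hTT k n d hd c hc ht
  have e := glue_rest c
  obtain ⟨P, Q, hPQ, hJ⟩ := hFAM k n d hn hd c (rest c) hc ht (e.symm ▸ hc) (e.symm ▸ ht)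
    (e.symm ▸ hs) b T1 T2 hb hT h1 h2 (e.symm ▸ h1) (e.symm ▸ h2)
  rw [e] at hJ
  rw [e] at hPQ
  have hx : ∀ ρ, algebraMap (Pol n d k) (Rat n d k) (P ρ - C (eval c (P ρ) / eval c (Q ρ)) * Q ρ) /
      algebraMap (Pol n d k) (Rat n d k) (Q ρ) * algebraMap (Pol n d k) (Rat n d k) (Q ρ) =
      algebraMap (Pol n d k) (Rat n d k) (P ρ - C (eval c (P ρ) / eval c (Q ρ)) * Q ρ) := by
    intro ρ
    apply div_mul_cancel₀
    intro h0
    rw [← map_zero (algebraMap (Pol n d k) (Rat n d k))] at h0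
    have := IsFractionRing.injective (Pol n d k) (Rat n d k) h0
    apply (hPQ ρ).2.1
    rw [this, map_zero]
  have hvan : ∀ ρ, InvVan c (algebraMap (Pol n d k) (Rat n d k)
      (P ρ - C (eval c (P ρ) / eval c (Q ρ)) * Q ρ) /
      algebraMap (Pol n d k) (Rat n d k) (Q ρ)) := by
    intro ρ
    refine ⟨_, Q ρ, invt_sub (hPQ ρ).1 _, (hPQ ρ).2.1, ?_, hx ρ⟩
    rw [map_sub, map_mul, eval_C, div_mul_cancel₀ _ (hPQ ρ).2.1, sub_self]
  refine ⟨fun ρ => ⟨⟨_, (hvan ρ).reg⟩, hvan ρ⟩, ?_⟩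
  intro h0
  apply hJ
  unfold Jac
  rw [RingHom.map_det]
  have : (eval c).mapMatrix (Matrix.of fun i ρ => grad (P i) (Q i) ρ) =
      Matrix.of fun i ρ => eval c (Q i) ^ 2 *
        (Matrix.of fun i ρ => DD c (⟨⟨_, (hvan i).reg⟩, hvan i⟩ : maxId c) ρ) i ρ := by
    ext i ρ
    simp only [RingHom.mapMatrix_apply, Matrix.map_apply, Matrix.of_apply]
    rw [← grad_sub (P i) (Q i) (eval c (P i) / eval c (Q i)) ρ,
      DD_eq (x := ⟨⟨_, (hvan i).reg⟩, hvan i⟩) (hPQ i).2.1 (hx i) ρ, mul_comm]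
  rw [this, Matrix.det_mul_column, h0, mul_zero]

theorem DD_surj {c : Cf n d → k} {h : Rest n d → maxId c}
    (hh : (Matrix.of fun i ρ => DD c (h i) ρ).det ≠ 0) : Function.Surjective (DD c) := by
  classical
  intro y
  set M : Matrix (Rest n d) (Rest n d) k := Matrix.of fun i ρ => DD c (h i) ρ with hM
  have hu : IsUnit M.det := isUnit_iff_ne_zero.mpr hh
  refine ⟨∑ i, (y ᵥ* M⁻¹) i • h i, ?_⟩
  rw [map_sum]
  have e1 : y = (y ᵥ* M⁻¹) ᵥ* M := by
    rw [Matrix.vecMul_vecMul, Matrix.nonsing_inv_mul _ hu, Matrix.vecMul_one]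
  funext ρ
  rw [Finset.sum_apply]
  conv_rhs => rw [e1]
  rw [Matrix.vecMul, dotProduct]
  refine Finset.sum_congr rfl fun i _ => ?_
  rw [map_smul, Pi.smul_apply, smul_eq_mul, hM, Matrix.of_apply]

theorem DD_ker (hTAU : S_TAU.{u}) (hNAK : S_NAK.{u}) [IsAlgClosed k] [CharZero k] (hn : 2 ≤ n)
    (hd : 2 ≤ d) (c : Cf n d → k) (hc : Nondeg c) (ht : Transv c)
    (hs : ∀ A A' : Matrix (Fin n) (Fin n) k, A * A' = 1 → Fixes A c →
      ∃ r : k, A = r • (1 : Matrix (Fin n) (Fin n) k)) {h : Rest n d → maxId c}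
    (hh : (Matrix.of fun i ρ => DD c (h i) ρ).det ≠ 0) (x : maxId c) (hx : DD c x = 0) :
    (x : locRing c) ∈ maxId c ^ 2 := by
  classical
  have hinj : Function.Injective (algebraMap (Pol n d k) (Rat n d k)) :=
    IsFractionRing.injective _ _
  have hrep : ∀ y : maxId c, ∃ P Q : Pol n d k, Invt P Q ∧ eval c Q ≠ 0 ∧ eval c P = 0 ∧
      y.1.1 * algebraMap (Pol n d k) (Rat n d k) Q = algebraMap (Pol n d k) (Rat n d k) P :=
    fun y => y.2
  obtain ⟨P0, Q0, hi0, hQ0, hP0, hx0⟩ := hrep x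
  choose P Q hi hQ hP hxx using fun ρ => hrep (h ρ)
  -- common denominator
  set G0 : Pol n d k := ∏ ρ, Q ρ with hG0
  set QQ : Pol n d k := Q0 * G0 with hQQ
  obtain ⟨G, hQG⟩ : ∃ G : Rest n d → Pol n d k, ∀ ρ, Q ρ * G ρ = QQ := by
    refine ⟨fun ρ => Q0 * ∏ ρ' ∈ Finset.univ.erase ρ, Q ρ', fun ρ => ?_⟩
    rw [hQQ, hG0, ← Finset.mul_prod_erase Finset.univ Q (Finset.mem_univ ρ)]
    ring
  have hQQ0 : eval c QQ ≠ 0 := by
    rw [hQQ, hG0, map_mul, map_prod]
    exact mul_ne_zero hQ0 (Finset.prod_ne_zero_iff.mpr fun ρ _ => hQ ρ)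
  have hI0 : Invt (P0 * G0) QQ := hi0.mul (Invt.self G0)
  have hI : ∀ ρ, Invt (P ρ * G ρ) QQ := fun ρ => by
    rw [← hQG ρ]; exact (hi ρ).mul (Invt.self _)
  have hX0 : x.1.1 * algebraMap (Pol n d k) (Rat n d k) QQ =
      algebraMap (Pol n d k) (Rat n d k) (P0 * G0) := by
    rw [hQQ, map_mul, map_mul, ← hx0]; ring
  have hX : ∀ ρ, (h ρ).1.1 * algebraMap (Pol n d k) (Rat n d k) QQ =
      algebraMap (Pol n d k) (Rat n d k) (P ρ * G ρ) := fun ρ => by
    rw [← hQG ρ, map_mul, map_mul, ← hxx ρ]; ring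
  obtain ⟨S, R, hS, hrel⟩ := hNAK k n d c (fun ρ => P ρ * G ρ) (P0 * G0) QQ hQQ0
    (fun ρ => by rw [map_mul, hP ρ, zero_mul]) (by rw [map_mul, hP0, zero_mul])
    (by
      unfold Jac
      rw [RingHom.map_det]
      have : (eval c).mapMatrix (Matrix.of fun i ρ => grad (P i * G i) QQ ρ) =
          Matrix.of fun i ρ => eval c QQ ^ 2 * (Matrix.of fun i ρ => DD c (h i) ρ) i ρ := by
        ext i ρ
        simp only [RingHom.mapMatrix_apply, Matrix.map_apply, Matrix.of_apply]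
        rw [DD_eq hQQ0 (hX i) ρ, mul_comm]
      rw [this, Matrix.det_mul_column (fun _ => eval c QQ ^ 2)]
      exact mul_ne_zero (Finset.prod_ne_zero_iff.mpr fun ρ _ => pow_ne_zero 2 hQQ0) hh)
    (fun ρ => by rw [DD_eq hQQ0 hX0 ρ, hx]; simp)
  -- the transfer
  set DG : ℕ := S.totalDegree + ∑ ρ, ∑ ρ', (R ρ ρ').totalDegree with hDG
  obtain ⟨τ, hτ1, hτ2, hτ3⟩ := hTAU k n d hn hd c hc ht hs DG
  have hdR : ∀ ρ ρ', (R ρ ρ').totalDegree ≤ DG := by
    intro ρ ρ'
    have h1 : (R ρ ρ').totalDegree ≤ ∑ ρ', (R ρ ρ').totalDegree :=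
      Finset.single_le_sum (f := fun ρ' => (R ρ ρ').totalDegree) (fun _ _ => Nat.zero_le _)
        (Finset.mem_univ ρ')
    have h2 : ∑ ρ', (R ρ ρ').totalDegree ≤ ∑ ρ, ∑ ρ', (R ρ ρ').totalDegree :=
      Finset.single_le_sum (f := fun ρ => ∑ ρ', (R ρ ρ').totalDegree)
        (fun _ _ => Nat.zero_le _) (Finset.mem_univ ρ)
    omega
  have hdS : S.totalDegree ≤ DG := by omega
  let ι := Option (Rest n d × Rest n d)
  let e : ι ≃ Fin (Fintype.card ι) := Fintype.equivFin ι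
  let PP' : ι → Pol n d k := fun o => o.elim (P0 * G0 * QQ)
    fun q => (P q.1 * G q.1) * (P q.2 * G q.2)
  let RR' : ι → MvPolynomial (Rest n d) k := fun o => o.elim S fun q => - R q.1 q.2
  have hfin := hτ3 (Fintype.card ι) (fun j => PP' (e.symm j)) (QQ * QQ)
    (fun j => RR' (e.symm j))
    (fun j => by
      rcases hj : e.symm j with _ | ⟨ρ, ρ'⟩
      · exact hI0.mul (Invt.self QQ)
      · exact (hI ρ).mul (hI ρ'))
    (by rw [map_mul]; exact mul_ne_zero hQQ0 hQQ0)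
    (fun j => by
      rcases hj : e.symm j with _ | ⟨ρ, ρ'⟩
      · exact hdS
      · change (- R ρ ρ').totalDegree ≤ DG
        rw [totalDegree_neg]
        exact hdR ρ ρ')
    (by
      rw [Equiv.sum_comp e.symm (fun o => res c (PP' o) * RR' o), Fintype.sum_option]
      change res c (P0 * G0 * QQ) * S + ∑ q : Rest n d × Rest n d,
        res c ((P q.1 * G q.1) * (P q.2 * G q.2)) * (- R q.1 q.2) = 0
      rw [Fintype.sum_prod_type]
      have h1 : res c (P0 * G0 * QQ) * S = S * res c (P0 * G0) * res c QQ := by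
        rw [map_mul (res c) (P0 * G0) QQ]; ring
      rw [h1, hrel, ← Finset.sum_add_distrib]
      refine Finset.sum_eq_zero fun ρ _ => ?_
      rw [← Finset.sum_add_distrib]
      refine Finset.sum_eq_zero fun ρ' _ => ?_
      simp only [map_mul]
      ring)
  rw [Equiv.sum_comp e.symm (fun o => algebraMap _ (Rat n d k) (PP' o) * τ (RR' o)),
    Fintype.sum_option] at hfin
  change algebraMap _ (Rat n d k) (P0 * G0 * QQ) * τ S + ∑ q : Rest n d × Rest n d,
    algebraMap _ (Rat n d k) ((P q.1 * G q.1) * (P q.2 * G q.2)) * τ (- R q.1 q.2) = 0 at hfin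
  have hq0 : algebraMap (Pol n d k) (Rat n d k) QQ ≠ 0 := by
    intro h0
    rw [← map_zero (algebraMap (Pol n d k) (Rat n d k))] at h0
    apply hQQ0
    rw [hinj h0, map_zero]
  have hfin2 : x.1.1 * τ S = ∑ q : Rest n d × Rest n d,
      (h q.1).1.1 * (h q.2).1.1 * (- τ (- R q.1 q.2)) := by
    apply mul_left_cancel₀ (mul_ne_zero hq0 hq0)
    rw [Finset.mul_sum]
    rw [map_mul _ (P0 * G0), ← hX0] at hfin
    have h2 : ∑ q : Rest n d × Rest n d,
        algebraMap _ (Rat n d k) ((P q.1 * G q.1) * (P q.2 * G q.2)) * τ (- R q.1 q.2) =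
        - ∑ q : Rest n d × Rest n d, algebraMap (Pol n d k) (Rat n d k) QQ *
          algebraMap (Pol n d k) (Rat n d k) QQ *
            ((h q.1).1.1 * (h q.2).1.1 * (- τ (- R q.1 q.2))) := by
      rw [← Finset.sum_neg_distrib]
      refine Finset.sum_congr rfl fun q _ => ?_
      rw [map_mul _ (P q.1 * G q.1), ← hX, ← hX]
      ring
    rw [h2] at hfin
    linear_combination hfin
  have hregS : InvReg c (τ S) := hτ1 S hdS
  have hunit : IsUnit (⟨τ S, hregS⟩ : locRing c) := by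
    by_contra hnu
    exact hτ2 S hdS hS ((mem_maxId_iff c _).mpr hnu)
  have hregR : ∀ q : Rest n d × Rest n d, InvReg c (τ (- R q.1 q.2)) := fun q =>
    hτ1 _ (by rw [totalDegree_neg]; exact hdR _ _)
  obtain ⟨uS, huS⟩ := hunit
  have hfin3 : (x : locRing c) * (uS : locRing c) = ∑ q : Rest n d × Rest n d,
      ((h q.1 : locRing c) * (h q.2 : locRing c)) *
        (- (⟨τ (- R q.1 q.2), hregR q⟩ : locRing c)) := by
    apply Subtype.ext
    rw [huS]
    rw [AddSubmonoidClass.coe_finset_sum]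
    exact hfin2
  have hfin4 : (x : locRing c) * (uS : locRing c) ∈ maxId c ^ 2 := by
    rw [hfin3]
    refine Ideal.sum_mem _ fun q _ => Ideal.mul_mem_right _ _ ?_
    rw [pow_two]
    exact Ideal.mul_mem_mul (h q.1).2 (h q.2).2
  have := Ideal.mul_mem_right ((uS⁻¹ : (locRing c)ˣ) : locRing c) _ hfin4
  rwa [mul_assoc, Units.mul_inv, mul_one] at this

theorem t_CONV : S_TT.{u} → S_FAM.{u} → S_TAU.{u} → S_NAK.{u} → S_CONV.{u} := by
  intro hTT hFAM hTAU hNAK k _ _ _ n d hn hd c hc ht hs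
  classical
  obtain ⟨h, hh⟩ := exists_h hTT hFAM hn hd c hc ht hs
  have hsurj := DD_surj hh
  have hker := DD_ker hTAU hNAK hn hd c hc ht hs hh
  let f : maxId c →ₗ[k] (maxId c).Cotangent := (maxId c).toCotangent.restrictScalars k
  have hf : Function.Surjective f := (maxId c).toCotangent_surjective
  have hkf : LinearMap.ker f = LinearMap.ker (DD c) := by
    ext x
    rw [LinearMap.mem_ker, LinearMap.mem_ker]
    change (maxId c).toCotangent x = 0 ↔ _
    rw [Ideal.toCotangent_eq_zero]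
    exact ⟨DD_sq x, hker x⟩
  have e3 : ∃ g : (maxId c).Cotangent →ₗ[k] (Rest n d → k), Function.Bijective g := by
    refine ⟨{ toFun := fun y => DD c (Function.surjInv hf y)
              map_add' := fun y z => ?_
              map_smul' := fun t y => ?_ }, ?_, ?_⟩
    · rw [← map_add, ← sub_eq_zero, ← map_sub, ← LinearMap.mem_ker, ← hkf, LinearMap.mem_ker,
        map_sub, map_add]
      simp only [Function.surjInv_eq]
      abel
    · rw [RingHom.id_apply, ← map_smul, ← sub_eq_zero, ← map_sub, ← LinearMap.mem_ker, ← hkf,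
        LinearMap.mem_ker, map_sub, map_smul]
      simp only [Function.surjInv_eq]
      abel
    · intro y z hyz
      have h1 : DD c (Function.surjInv hf y) = DD c (Function.surjInv hf z) := hyz
      rw [← sub_eq_zero, ← map_sub, ← LinearMap.mem_ker, ← hkf, LinearMap.mem_ker,
        map_sub] at h1
      simp only [Function.surjInv_eq] at h1
      exact sub_eq_zero.mp h1
    · intro y
      obtain ⟨x, rfl⟩ := hsurj y
      refine ⟨f x, ?_⟩
      change DD c (Function.surjInv hf (f x)) = DD c x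
      rw [← sub_eq_zero, ← map_sub, ← LinearMap.mem_ker, ← hkf, LinearMap.mem_ker, map_sub]
      simp only [Function.surjInv_eq]
      abel
  obtain ⟨g, hg⟩ := e3
  rw [(LinearEquiv.ofBijective g hg).finrank_eq, Module.finrank_fintype_fun_eq_card]

end Pool.Agent.D0H58.SM
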