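import Pool.Agent.D0H90.SM.Stm4

set_option autoImplicit false

/-!
# SM 27: the coordinates of a generic solution are algebraically independent (`t_GENR`)
-/

namespace Pool.Agent.D0H58.SM.GR

open MvPolynomial Matrix Pool.Agent.D0H90.SM

universe u

section general

variable {k Ω : Type u} [Field k] [Field Ω] [Algebra k Ω]

open scoped IntermediateField.algebraAdjoinAdjoin in
/-- A family which generates a field containing sufficiently many algebraically independent
elements is algebraically independent. -/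
theorem indep_of_gen {ι κ : Type} [Fintype ι] [Fintype κ] {x : ι → Ω}
    (hx : IsTranscendenceBasis k x) {f : κ → Ω} (hf : AlgebraicIndependent k f)
    (hcard : Fintype.card ι ≤ Fintype.card κ) {g : ι → Ω}
    (hg : ∀ a, f a ∈ IntermediateField.adjoin k (Set.range g)) : AlgebraicIndependent k g := by
  have hfaith : FaithfulSMul k Ω := inferInstance
  have htr := hx.lift_cardinalMk_eq_trdeg
  have hfB : IsTranscendenceBasis k f := by
    apply hf.isTranscendenceBasis_of_lift_trdeg_le_of_finite
    rw [← Cardinal.lift_id'.{0, u} (Algebra.trdeg k Ω)] at htr ⊢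
    have h1 : Cardinal.lift.{u} (Cardinal.mk ι) ≤ Cardinal.lift.{u} (Cardinal.mk κ) := by
      rw [Cardinal.lift_le, Cardinal.mk_fintype, Cardinal.mk_fintype]
      exact_mod_cast hcard
    simp only [Cardinal.lift_id, Cardinal.lift_uzero] at htr ⊢
    rw [← htr]
    exact h1
  have halg := hfB.isAlgebraic
  have hle : Algebra.adjoin k (Set.range f) ≤
      (IntermediateField.adjoin k (Set.range g)).toSubalgebra := by
    apply Algebra.adjoin_le
    rintro _ ⟨a, rfl⟩
    exact hg a
  have halg2 : Algebra.IsAlgebraic (Algebra.adjoin k (Set.range g)) Ω := by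
    constructor
    intro y
    have h1 : IsAlgebraic (Algebra.adjoin k (Set.range f)) y := halg.isAlgebraic y
    have h2 : IsAlgebraic (IntermediateField.adjoin k (Set.range g)).toSubalgebra y :=
      h1.tower_top_of_subalgebra_le hle
    have h3 : IsAlgebraic (IntermediateField.adjoin k (Set.range g)) y := h2
    exact (IsFractionRing.isAlgebraic_iff (Algebra.adjoin k (Set.range g))
      (IntermediateField.adjoin k (Set.range g)) Ω).mpr h3
  have hle2 : Cardinal.lift.{u} (Cardinal.mk ι) ≤ Cardinal.lift.{0} (Algebra.trdeg k Ω) :=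
    htr.le
  exact (Algebra.IsAlgebraic.isTranscendenceBasis_of_lift_le_trdeg_of_finite k g hle2).1

end general

section ev

variable {n d : ℕ}

theorem mon_bas {R : Type*} [CommRing R] (i : Fin n) (m m' : Ex n d) (hm : (m.1 i : ℕ) = d) :
    mon m' (bas i : Fin n → R) = if m' = m then 1 else 0 := by
  classical
  have hz : ∀ (m'' : Ex n d), (m''.1 i : ℕ) = d → ∀ l, l ≠ i → (m''.1 l : ℕ) = 0 := by
    intro m'' h l hl
    have h1 := m''.2
    rw [← Finset.add_sum_erase Finset.univ _ (Finset.mem_univ i), h] at h1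
    have h2 : ∑ l ∈ Finset.univ.erase i, (m''.1 l : ℕ) = 0 := by omega
    exact (Finset.sum_eq_zero_iff.mp h2) l (Finset.mem_erase.mpr ⟨hl, Finset.mem_univ _⟩)
  unfold mon
  split_ifs with h
  · subst h
    apply Finset.prod_eq_one
    intro l _
    by_cases hl : l = i
    · subst hl; simp
    · rw [hz m' hm l hl, pow_zero]
  · have : ∃ l, l ≠ i ∧ (m'.1 l : ℕ) ≠ 0 := by
      by_contra hcon
      push Not at hcon
      apply h
      have h1 := m'.2
      rw [← Finset.add_sum_erase Finset.univ _ (Finset.mem_univ i),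
        Finset.sum_eq_zero (fun l hl => hcon l (Finset.mem_erase.mp hl).1), add_zero] at h1
      apply Subtype.ext
      funext l
      apply Fin.ext
      by_cases hl : l = i
      · subst hl; rw [h1, hm]
      · rw [hcon l hl, hz m hm l hl]
    obtain ⟨l, hl, hl0⟩ := this
    apply Finset.prod_eq_zero (Finset.mem_univ l)
    have h5 : (bas i : Fin n → R) l = 0 := Pi.single_eq_of_ne hl _
    rw [h5, zero_pow hl0]

theorem ev_bas {R : Type*} [CommRing R] (c : Cf n d → R) (i j : Fin n) (m : Ex n d)
    (hm : (m.1 i : ℕ) = d) : ev c (bas i) j = c (j, m) := by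
  classical
  unfold ev
  simp only [mon_bas i m _ hm]
  simp

theorem card_le (hd : 1 ≤ d) :
    Fintype.card ((Fin n × Fin n) ⊕ Rest n d) ≤ Fintype.card (Cf n d) := by
  classical
  have hsum : ∀ j : Fin n, ∑ l, ((if l = j then (⟨d, Nat.lt_succ_self d⟩ : Fin (d + 1)) else
      ⟨0, Nat.succ_pos d⟩ : Fin (d + 1)) : ℕ) = d := by
    intro j
    rw [Finset.sum_eq_single j]
    · simp
    · intro l _ hl; simp [hl]
    · intro h; exact absurd (Finset.mem_univ _) h
  let e : (Fin n × Fin n) ⊕ Rest n d → Cf n d := Sum.elim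
    (fun p => (p.1, ⟨fun l => if l = p.2 then ⟨d, Nat.lt_succ_self d⟩ else ⟨0, Nat.succ_pos d⟩,
      hsum p.2⟩)) (fun ρ => ρ.1)
  apply Fintype.card_le_of_injective e
  rintro (p | ρ) (q | ρ') h
  · have h1 : p.1 = q.1 := congrArg (fun a : Cf n d => a.1) h
    have h2 := congrArg (fun a : Cf n d => (a.2.1 p.2 : ℕ)) h
    simp only [e, Sum.elim_inl] at h2
    by_cases h3 : p.2 = q.2
    · exact congrArg Sum.inl (Prod.ext h1 h3)
    · simp [h3] at h2
      omega
  · exfalso
    apply ρ'.2
    refine ⟨p.2, ?_⟩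
    have h2 := congrArg (fun a : Cf n d => (a.2.1 p.2 : ℕ)) h
    simp only [e, Sum.elim_inl, Sum.elim_inr] at h2
    rw [← h2]
    simp
  · exfalso
    apply ρ.2
    refine ⟨q.2, ?_⟩
    have h2 := congrArg (fun a : Cf n d => (a.2.1 q.2 : ℕ)) h
    simp only [e, Sum.elim_inl, Sum.elim_inr] at h2
    rw [h2]
    simp
  · exact congrArg Sum.inr (Subtype.ext h)

end ev

theorem t_GENR : S_BASE.{u} → S_THETA.{u} → S_GENR.{u} := by
  intro hB hT k _ _ _ n d hd c hc ht E hE hdet R hR
  classical
  obtain ⟨hB1, hB2, -, -, hB5, -⟩ := hB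
  have hinf : Infinite (OM n d k) :=
    Infinite.of_injective _ (algebraMap k (OM n d k)).injective
  have hu : IsUnit E.det := isUnit_iff_ne_zero.mpr hdet
  set fE : Cf n d → OM n d k := conj E E⁻¹ (genf c) with hfE
  -- the point `f^E` lies in the slice
  have hslice : fE = glue (fun a => algebraMap k (OM n d k) (c a)) (rest fE) := by
    funext a
    unfold glue
    split_ifs with h
    · obtain ⟨i, hi⟩ := h
      have h1 := congrFun (hB1 (OM n d k) n d (genf c) E E⁻¹ (bas i)) a.1
      rw [← hfE, ev_bas fE i a.1 a.2 hi] at h1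
      have h2 : E *ᵥ (bas i) = fun l => E l i := by
        funext l
        simp [Matrix.mulVec, dotProduct, Pi.single_apply]
      rw [h2, hE i, Matrix.mulVec_mulVec, Matrix.nonsing_inv_mul _ hu, Matrix.one_mulVec,
        ev_bas c i a.1 a.2 hi] at h1
      exact h1
    · rfl
  have hback : genf c = conj E⁻¹ E fE := by
    apply hB2
    intro x
    rw [hB1, hfE, hB1, Matrix.mulVec_mulVec, Matrix.mulVec_mulVec, Matrix.mul_nonsing_inv _ hu,
      Matrix.one_mulVec, Matrix.one_mulVec]
  -- the generators
  let g : (Fin n × Fin n) ⊕ Rest n d → OM n d k := Sum.elim (fun p => E p.1 p.2) (rest fE)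
  let F : IntermediateField k (OM n d k) := IntermediateField.adjoin k (Set.range g)
  have hgF : ∀ i, g i ∈ F := fun i => IntermediateField.subset_adjoin k _ ⟨i, rfl⟩
  let φ : F →+* OM n d k := algebraMap F (OM n d k)
  let EF : Matrix (Fin n) (Fin n) F := Matrix.of fun i j => ⟨E i j, hgF (Sum.inl (i, j))⟩
  have hEF : EF.map φ = E := by ext i j; rfl
  have hdF : EF.det ≠ 0 := by
    intro h0
    apply hdet
    rw [← hEF, ← RingHom.mapMatrix_apply, ← RingHom.map_det, h0, map_zero]
  have huF : IsUnit EF.det := isUnit_iff_ne_zero.mpr hdF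
  have hEinv : (EF⁻¹).map φ = E⁻¹ := by
    symm
    apply Matrix.inv_eq_left_inv
    conv_lhs => rw [← hEF]
    rw [← Matrix.map_mul, Matrix.nonsing_inv_mul _ huF, Matrix.map_one _ (map_zero φ) (map_one φ)]
  let zF : Rest n d → F := fun ρ => ⟨rest fE ρ, hgF (Sum.inr ρ)⟩
  have hfF : fE = fun a => φ (glue (fun a => algebraMap k F (c a)) zF a) := by
    conv_lhs => rw [hslice]
    funext a
    unfold glue
    split_ifs with h
    · exact IsScalarTower.algebraMap_apply k F (OM n d k) (c a)
    · rfl
  have hmem : ∀ a, genf c a ∈ F := by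
    intro a
    have h1 : genf c = fun a => φ (conj EF⁻¹ EF (glue (fun a => algebraMap k F (c a)) zF) a) := by
      rw [hback, hfF, ← hB5, hEF, hEinv]
    rw [h1]
    exact SetLike.coe_mem (conj EF⁻¹ EF (glue (fun a => algebraMap k F (c a)) zF) a)
  -- the transcendence basis given by the variables
  have hX1 : IsTranscendenceBasis k (X : (Fin n × Fin n) ⊕ Rest n d → PP n d k) :=
    IsTranscendenceBasis.mvPolynomial _ k
  have hA1 : Algebra.IsAlgebraic (PP n d k) (LL n d k) :=
    IsLocalization.isAlgebraic _ (nonZeroDivisors (PP n d k))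
  have hX2 := hX1.algebraMap_comp (A := LL n d k)
  have hX3 := hX2.algebraMap_comp (A := OM n d k)
  -- the coordinates of `f` are independent
  have hf1 : AlgebraicIndependent k (genfL c) := hT k n d hd c ht
  have hf2 : AlgebraicIndependent k (genf c) :=
    hf1.map' (f := IsScalarTower.toAlgHom k (LL n d k) (OM n d k))
      (algebraMap (LL n d k) (OM n d k)).injective
  have hg := indep_of_gen hX3 hf2 (card_le (by omega)) (g := g) hmem
  have hz : AlgebraicIndependent k (rest fE) := hg.comp Sum.inr Sum.inr_injective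
  intro h0
  exact hR ((injective_iff_map_eq_zero _).mp hz R h0)

end Pool.Agent.D0H58.SM.GR

namespace Pool.Agent.D0H58.SM

open Pool.Agent.D0H90.SM

universe u

theorem t_GENR : S_BASE.{u} → S_THETA.{u} → S_GENR.{u} := GR.t_GENR

end Pool.Agent.D0H58.SM
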